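import Pool.Agent.Helper29.MWF.PR2
import Pool.Agent.Helper69.MWF.Stmts

/-!
# MP_80e84b_lc: the theorem of Posner and Robinson for enumeration
-/

set_option autoImplicit false

namespace Pool.Agent.Helper29.MWF

open Nat.Partrec Pool.Agent.Helper95.MW

/-- what happens at stage `n` (state `p, δ`, next state `p', δ'`) along `Q` -/
def Stage (A : Set ℕ) (w : ℕ → ℕ) (n p : ℕ) (δ : List ℕ) (p' : ℕ) (δ' : List ℕ)
    (Q : ℕ → ℕ) : Prop :=
  (Q p ∈ A ∧ (∀ N, ¬ EvF n (Nat.pair p (ec δ)) (jn w Q) N) ∧ p' = p + 1 ∧ δ' = δ ++ [0]) ∨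
  (Q p ∉ A ∧ ∃ N, EvF n (Nat.pair p (ec δ)) (jn w Q) N ∧
    (∀ N' < N, ¬ EvF n (Nat.pair p (ec δ)) (jn w Q) N') ∧ p' = N.unpair.1 ∧
    δ' = δ ++ [N.unpair.2.unpair.2.unpair.1 + 1])

theorem exists_stage {A : Set ℕ} {w : ℕ → ℕ} (h : ¬ CEIn A w) (n : ℕ)
    (x : (ℕ → ℕ) × ℕ × List ℕ) : ∃ x' : (ℕ → ℕ) × ℕ × List ℕ,
      (∀ i < x.2.1, x'.1 i = x.1 i) ∧ x.2.1 + 1 ≤ x'.2.1 ∧
      (∃ e, x'.2.2 = x.2.2 ++ [e]) ∧
      ∀ Q : ℕ → ℕ, (∀ i < x'.2.1, Q i = x'.1 i) → Stage A w n x.2.1 x.2.2 x'.2.1 x'.2.2 Q := by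
  classical
  obtain ⟨q, p, δ⟩ := x
  have hW := ceIn_cand n (Nat.pair p (ec δ)) w q p (by rw [Nat.unpair_pair])
  have hne : A ≠ {a | ∃ q' : ℕ → ℕ, ini q' p = ini q p ∧ q' p = a ∧
      ∃ N, EvF n (Nat.pair p (ec δ)) (jn w q') N} := by
    intro e
    exact h (e ▸ hW)
  obtain ⟨a, ha⟩ : ∃ a, ¬ (a ∈ A ↔ ∃ q' : ℕ → ℕ, ini q' p = ini q p ∧ q' p = a ∧
      ∃ N, EvF n (Nat.pair p (ec δ)) (jn w q') N) := by
    by_contra hc
    push Not at hc
    exact hne (Set.ext fun a => hc a)
  by_cases haA : a ∈ A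
  · -- first case
    have haW : ¬ ∃ q' : ℕ → ℕ, ini q' p = ini q p ∧ q' p = a ∧
      ∃ N, EvF n (Nat.pair p (ec δ)) (jn w q') N := fun hh => ha ⟨fun _ => hh, fun _ => haA⟩
    refine ⟨(fun i => if i < p then q i else a, p + 1, δ ++ [0]), ?_, le_rfl, ⟨0, rfl⟩, ?_⟩
    · intro i hi
      change i < p at hi
      simp only
      rw [if_pos hi]
    · intro Q hQ
      simp only at hQ
      have h1 : Q p = a := by
        rw [hQ p (by omega), if_neg (by omega)]
      refine Or.inl ⟨by rw [h1]; exact haA, fun N hN => haW ⟨Q, ?_, h1, N, hN⟩, rfl, rfl⟩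
      refine ini_eq_of_agree fun i hi => ?_
      rw [hQ i (by omega), if_pos hi]
  · have haW : ∃ q' : ℕ → ℕ, ini q' p = ini q p ∧ q' p = a ∧
      ∃ N, EvF n (Nat.pair p (ec δ)) (jn w q') N := by
      by_contra hh
      exact ha ⟨fun h => absurd h haA, fun h => absurd h hh⟩
    have hex : ∃ N, ∃ q' : ℕ → ℕ, ini q' p = ini q p ∧ q' p = a ∧
        EvF n (Nat.pair p (ec δ)) (jn w q') N := by
      obtain ⟨q', h1, h2, N, h3⟩ := haW
      exact ⟨N, q', h1, h2, h3⟩
    obtain ⟨N, ⟨q', h1, h2, h3⟩, hmin⟩ : ∃ N, (∃ q' : ℕ → ℕ, ini q' p = ini q p ∧ q' p = a ∧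
        EvF n (Nat.pair p (ec δ)) (jn w q') N) ∧ ∀ N' < N, ¬ ∃ q' : ℕ → ℕ, ini q' p = ini q p ∧
        q' p = a ∧ EvF n (Nat.pair p (ec δ)) (jn w q') N' :=
      ⟨Nat.find hex, Nat.find_spec hex, fun N' hN' => Nat.find_min hex hN'⟩
    have hpN : p + 1 ≤ N.unpair.1 := by
      have := h3.1
      rwa [Nat.unpair_pair] at this
    refine ⟨(q', N.unpair.1, δ ++ [N.unpair.2.unpair.2.unpair.1 + 1]), ?_, hpN, ⟨_, rfl⟩, ?_⟩
    · intro i hi
      exact agree_of_ini_eq h1 i hi
    · intro Q hQ
      simp only at hQ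
      have h4 : Q p = a := by
        rw [hQ p (by omega), h2]
      have h5 : ini Q p = ini q p := by
        rw [← h1]
        exact ini_eq_of_agree fun i hi => hQ i (by omega)
      refine Or.inr ⟨by rw [h4]; exact haA, N, h3.congr ?_, ?_, rfl, rfl⟩
      · intro i hi
        unfold jn
        rw [hQ i hi]
      · intro N' hN' h6
        exact hmin N' hN' ⟨Q, h5, h4, h6⟩

theorem pr {A : Set ℕ} {w : ℕ → ℕ} (h : ¬ CEIn A w) :
    ∃ c d : ℕ → ℕ, LE w c ∧ ¬ LE d c ∧ ∀ y, CEIn A y → LE d (jn y c) := by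
  classical
  choose nx hnx1 hnx2 hnx3 hnx4 using fun n => exists_stage h n
  let st : ℕ → (ℕ → ℕ) × ℕ × List ℕ := fun n => Nat.rec (fun _ => 0, 0, []) (fun i x => nx i x) n
  have hst : ∀ n, st (n + 1) = nx n (st n) := fun n => rfl
  have hp : ∀ n, (st n).2.1 + 1 ≤ (st (n + 1)).2.1 := fun n => hnx2 n (st n)
  have hpn : ∀ n, n ≤ (st n).2.1 := by
    intro n
    induction n with
    | zero => exact Nat.zero_le _
    | succ n ih => exact le_trans (by omega) (hp n)
  have hmono : ∀ n m, n ≤ m → (st n).2.1 ≤ (st m).2.1 := by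
    intro n m hnm
    induction m, hnm using Nat.le_induction with
    | base => exact le_rfl
    | succ m hm ih => exact ih.trans (by have := hp m; omega)
  have hag : ∀ n m, n ≤ m → ∀ i < (st n).2.1, (st m).1 i = (st n).1 i := by
    intro n m hnm
    induction m, hnm using Nat.le_induction with
    | base => exact fun i _ => rfl
    | succ m hm ih =>
      intro i hi
      rw [hst, hnx1 m (st m) i (lt_of_lt_of_le hi (hmono n m hm)), ih i hi]
  let Q : ℕ → ℕ := fun i => (st (i + 1)).1 i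
  have hQ : ∀ n, ∀ i < (st n).2.1, Q i = (st n).1 i := by
    intro n i hi
    change (st (i + 1)).1 i = _
    rcases le_total (i + 1) n with h1 | h1
    · exact (hag (i + 1) n h1 i (lt_of_lt_of_le (Nat.lt_succ_self i) (hpn (i + 1)))).symm
    · exact hag n (i + 1) h1 i hi
  have hS : ∀ n, Stage A w n (st n).2.1 (st n).2.2 (st (n + 1)).2.1 (st (n + 1)).2.2 Q :=
    fun n => hnx4 n (st n) Q (hQ (n + 1))
  have hlen : ∀ n, (st n).2.2.length = n := by
    intro n
    induction n with
    | zero => rfl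
    | succ n ih =>
      obtain ⟨e, he⟩ := hnx3 n (st n)
      rw [hst, he, List.length_append, ih]
      rfl
  let d : ℕ → ℕ := fun n => (st (n + 1)).2.2.getD n 0
  have hd : ∀ n, ini d n = (st n).2.2 ∧ (st (n + 1)).2.2 = (st n).2.2 ++ [d n] := by
    have h1 : ∀ n, (st (n + 1)).2.2 = (st n).2.2 ++ [d n] := by
      intro n
      obtain ⟨e, he⟩ := hnx3 n (st n)
      have h2 : d n = e := by
        change (st (n + 1)).2.2.getD n 0 = e
        rw [hst, he]
        have h3 : n = (st n).2.2.length := (hlen n).symm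
        generalize (st n).2.2 = l at h3 ⊢
        subst h3
        simp
      rw [hst, he, h2]
    intro n
    refine ⟨?_, h1 n⟩
    induction n with
    | zero => rfl
    | succ n ih => rw [ini_succ, ih, h1 n]
  refine ⟨jn w Q, d, le_jn_left _ _, ?_, ?_⟩
  · -- `d` is not computable
    intro hle
    obtain ⟨V, hV⟩ := ceIn_iff.1 (le_iff_segs.1 hle)
    set n := Encodable.encode V with hn
    have hVn : Denumerable.ofNat Code n = V := by rw [hn, Denumerable.ofNat_encode]
    rcases hS n with ⟨-, h2, -, h4⟩ | ⟨-, N, h2, -, -, h4⟩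
    · -- the initial segment of length `n + 1` is not enumerated
      have h5 : d n = 0 := by
        have h6 := (hd n).2.symm.trans h4
        have h7 := List.append_cancel_left h6
        simpa using h7
      have h6 : ec (ini d (n + 1)) ∈ WC V (jn w Q) := by
        rw [← hV]
        exact ⟨n + 1, rfl⟩
      obtain ⟨s, hs⟩ := h6
      obtain ⟨t, ht⟩ := (dom_iff_ev V _).1 hs
      refine h2 (Nat.pair (s + (st n).2.1 + 1) (Nat.pair s (Nat.pair 0 t))) ⟨?_, ?_, ?_⟩
      · simp only [Nat.unpair_pair]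
        omega
      · simp only [Nat.unpair_pair]
        omega
      · simp only [Nat.unpair_pair, dl_ec]
        rw [ini_succ, (hd n).1, h5] at ht
        unfold evn
        rw [hVn]
        exact ht
    · -- a wrong initial segment is enumerated
      have h5 : d n = N.unpair.2.unpair.2.unpair.1 + 1 := by
        have h6 := (hd n).2.symm.trans h4
        have h7 := List.append_cancel_left h6
        simpa using h7
      have h6 := evn_dom h2.2.2
      rw [hVn, Nat.unpair_pair] at h6
      simp only [dl_ec] at h6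
      have h7 : ec ((st n).2.2 ++ [N.unpair.2.unpair.2.unpair.1]) ∈ segs d := by
        rw [hV]
        exact ⟨_, h6⟩
      obtain ⟨s, hs⟩ := h7
      have h8 : (st n).2.2 ++ [N.unpair.2.unpair.2.unpair.1] = ini d s := by
        have := congrArg dl hs
        rwa [dl_ec, dl_ec] at this
      have h9 : s = n + 1 := by
        have := congrArg List.length h8
        rw [List.length_append, hlen, ini_length] at this
        exact this.symm
      rw [h9, ini_succ, (hd n).1] at h8
      have h10 := List.append_cancel_left h8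
      have h11 : N.unpair.2.unpair.2.unpair.1 = d n := by simpa using h10
      omega
  · -- the decoder
    intro y hy
    let stc : ℕ → ℕ := fun n => Nat.pair (st n).2.1 (ec (st n).2.2)
    have h1 : LE stc (jn y (jn w Q)) := by
      refine iter (ceIn_union (ceIn_succ1 (w := w) (q := Q) hy) (ceIn_succ2 (y := y) (u := jn w Q)))
        ?_ ?_
      · intro n
        rcases hS n with ⟨h2, -, h3, h4⟩ | ⟨-, N, h2, h3, h4, h5⟩
        · refine Or.inl ?_
          simp only [Set.mem_ofPred_eq, Succ1, stc, Nat.unpair_pair, dl_ec]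
          exact ⟨by rw [h3, h4], h2⟩
        · refine Or.inr ?_
          simp only [Set.mem_ofPred_eq, Succ2, stc, Nat.unpair_pair, dl_ec]
          exact ⟨N, ⟨h2, h3⟩, by rw [h4, h5]⟩
      · intro n x hx
        rcases hS n with ⟨h2, h6, h3, h4⟩ | ⟨h6, N, h2, h3, h4, h5⟩
        · rcases hx with hx | hx
          · simp only [Set.mem_ofPred_eq, Succ1, stc, Nat.unpair_pair, dl_ec] at hx
            change x = Nat.pair (st (n + 1)).2.1 (ec (st (n + 1)).2.2)
            rw [h3, h4]
            exact hx.1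
          · simp only [Set.mem_ofPred_eq, Succ2, stc, Nat.unpair_pair, dl_ec] at hx
            obtain ⟨N, ⟨h7, -⟩, -⟩ := hx
            exact absurd h7 (h6 N)
        · rcases hx with hx | hx
          · simp only [Set.mem_ofPred_eq, Succ1, stc, Nat.unpair_pair, dl_ec] at hx
            exact absurd hx.2 h6
          · simp only [Set.mem_ofPred_eq, Succ2, stc, Nat.unpair_pair, dl_ec] at hx
            obtain ⟨N', ⟨h7, h8⟩, h9⟩ := hx
            have h10 : N' = N := by
              rcases lt_trichotomy N' N with h | h | h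
              · exact absurd h7 (h3 N' h)
              · exact h
              · exact absurd h2 (h8 N h)
            subst h10
            change x = Nat.pair (st (n + 1)).2.1 (ec (st (n + 1)).2.2)
            rw [h9, h4, h5]
    have hG : Nat.Primrec (fun m : ℕ => (dl m.unpair.2.unpair.2).getD m.unpair.1 0) := by
      refine Primrec.nat_iff.1 ?_
      refine (Primrec.list_getD 0).comp (primrec_dl.comp ?_) (Primrec.fst.comp Primrec.unpair)
      exact Primrec.snd.comp (Primrec.unpair.comp (Primrec.snd.comp Primrec.unpair))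
    have h2 : RT (jn y (jn w Q)) (fun n => (dl (Nat.pair n (stc (n + 1))).unpair.2.unpair.2).getD
        (Nat.pair n (stc (n + 1))).unpair.1 0) :=
      rt_comp (rt_prim hG) (rt_pair (rt_prim (Primrec.nat_iff.1 Primrec.id))
        (rt_comp (le_iff.1 h1) (rt_prim (Primrec.nat_iff.1 Primrec.succ))))
    rw [le_iff]
    simpa only [Nat.unpair_pair, stc, dl_ec] using h2

end Pool.Agent.Helper29.MWF

namespace Pool.Agent.Helper69.MWF

theorem st_PR29 : ST_PR := fun _ _ h => Pool.Agent.Helper29.MWF.pr h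

end Pool.Agent.Helper69.MWF
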