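import Pool.Agent.Helper95.MW.Cat

/-!
# MP_80e84b_lc: iterated search
-/

set_option autoImplicit false

namespace Pool.Agent.Helper29.MWF

open Nat.Partrec Pool.Agent.Helper95.MW

/-- iterated search: if the successor relation of a sequence is c.e. in `z` and single valued along
the sequence then the sequence is computable from `z` -/
theorem iter {z st : ℕ → ℕ} {R : Set ℕ} (hR : CEIn R z)
    (h1 : ∀ n, Nat.pair n (Nat.pair (st n) (st (n + 1))) ∈ R)
    (h2 : ∀ n x, Nat.pair n (Nat.pair (st n) x) ∈ R → x = st (n + 1)) : LE st z := by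
  obtain ⟨c, rfl⟩ := ceIn_iff.1 hR
  obtain ⟨p, hp1, hp2, hp3⟩ := search (α := ℕ × ℕ × ℕ)
    (fun v => ev c v.2.1.2.2 (Nat.pair (Nat.pair v.1.unpair.1 (Nat.pair v.1.unpair.2 v.2.1.1))
      (ec v.2.2)))
    (by
      refine (primrec_ev c).comp ?_ ?_
      · exact Primrec.snd.comp (Primrec.snd.comp (Primrec.fst.comp Primrec.snd))
      · refine Primrec₂.natPair.comp ?_ (primrec_ec.comp (Primrec.snd.comp Primrec.snd))
        refine Primrec₂.natPair.comp (Primrec.fst.comp (Primrec.unpair.comp Primrec.fst)) ?_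
        refine Primrec₂.natPair.comp (Primrec.snd.comp (Primrec.unpair.comp Primrec.fst)) ?_
        exact Primrec.fst.comp (Primrec.fst.comp Primrec.snd))
    (fun T => T.2.1) (Primrec.fst.comp Primrec.snd)
    (fun v => v.2.1) (Primrec.fst.comp Primrec.snd) z
  -- one step
  have hstep : ∀ n, p (Nat.pair n (st n)) = Part.some (st (n + 1)) := by
    intro n
    have hdom : (p (Nat.pair n (st n))).Dom := by
      rw [← hp2]
      obtain ⟨s, hs⟩ := h1 n
      obtain ⟨t, ht⟩ := (dom_iff_ev c _).1 hs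
      refine ⟨(st (n + 1), s, t), ?_⟩
      simpa using ht
    obtain ⟨k, hk⟩ := Part.dom_iff_mem.1 hdom
    obtain ⟨⟨x, s, t⟩, h3, h4⟩ := hp3 _ k hk
    simp only [Nat.unpair_pair] at h3 h4
    have h5 : Nat.pair n (Nat.pair (st n) x) ∈ WC c z := ⟨s, (dom_iff_ev c _).2 ⟨t, h3⟩⟩
    have h6 := h2 n x h5
    rw [h4, h6] at hk
    exact Part.eq_some_iff.2 hk
  rw [le_iff]
  have h3 : RT z (fun _ => st 0) := rt_prim (Primrec.nat_iff.1 (Primrec.const _))
  have h4 := Nat.RecursiveIn.prec h3
    (Nat.RecursiveIn.comp hp1 (rt_right (w := z)))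
  have h5 : RT z (fun q => st q.unpair.2) := by
    refine h4.of_eq fun q => ?_
    simp only [PFun.lift]
    generalize q.unpair.1 = a
    generalize q.unpair.2 = m
    induction m with
    | zero => rfl
    | succ m ih =>
      change (Nat.rec _ _ m : Part ℕ).bind _ = _
      rw [ih, Part.bind_some]
      refine (Part.bind_some _ _).trans ?_
      rw [Nat.unpair_pair]
      exact hstep m
  have h6 : Nat.Primrec (fun s : ℕ => Nat.pair 0 s) :=
    Primrec.nat_iff.1 (Primrec₂.natPair.comp (Primrec.const 0) Primrec.id)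
  have h7 := rt_comp h5 (rt_prim h6)
  simpa only [Nat.unpair_pair] using h7

end Pool.Agent.Helper29.MWF
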