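import Pool.Agent.Helper29.MWF.PR1

/-!
# MP_80e84b_lc: the relations used in the theorem of Posner and Robinson
-/

set_option autoImplicit false

namespace Pool.Agent.Helper29.MWF

open Nat.Partrec Pool.Agent.Helper95.MW

/-- bounded evaluation of the code number `n` -/
def evn (n t m : ℕ) : Bool := ev (Denumerable.ofNat Code n) t m

theorem primrec_evn : Primrec fun v : ℕ × ℕ × ℕ => evn v.1 v.2.1 v.2.2 := by
  have h := Code.primrec_evaln
  have h2 : Primrec fun v : ℕ × ℕ × ℕ =>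
      Code.evaln v.2.1 (Denumerable.ofNat Code v.1) v.2.2 := by
    refine h.comp (Primrec.pair (Primrec.pair ?_ ?_) ?_)
    · exact Primrec.fst.comp Primrec.snd
    · exact (Primrec.ofNat Code).comp Primrec.fst
    · exact Primrec.snd.comp Primrec.snd
  exact Primrec.option_isSome.comp h2

theorem evn_dom {n t m : ℕ} (h : evn n t m = true) :
    ((Denumerable.ofNat Code n).eval m).Dom := (dom_iff_ev _ _).2 ⟨t, h⟩

theorem primrec_evnTrue {α : Type} [Primcodable α] {n t m : α → ℕ} (hn : Primrec n)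
    (ht : Primrec t) (hm : Primrec m) : PrimrecPred fun v => evn (n v) (t v) (m v) = true := by
  have h := primrec_evn.comp (Primrec.pair hn (Primrec.pair ht hm))
  exact Primrec.eq.comp h (Primrec.const true)

theorem primrec_evTrue (c : Code) {α : Type} [Primcodable α] {t m : α → ℕ}
    (ht : Primrec t) (hm : Primrec m) : PrimrecPred fun v => ev c (t v) (m v) = true := by
  have h := (primrec_ev c).comp ht hm
  exact Primrec.eq.comp h (Primrec.const true)

/-- evidence: `x = ⟨p, δ⟩`, `N = ⟨l, s, k, t⟩` -/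
def EvF (n x : ℕ) (u : ℕ → ℕ) (N : ℕ) : Prop :=
  x.unpair.1 + 1 ≤ N.unpair.1 ∧ N.unpair.2.unpair.1 ≤ N.unpair.1 ∧
    evn n N.unpair.2.unpair.2.unpair.2
      (Nat.pair (ec (dl x.unpair.2 ++ [N.unpair.2.unpair.2.unpair.1]))
        (ec (ini u N.unpair.2.unpair.1))) = true

theorem EvF.congr {n x N : ℕ} {u u' : ℕ → ℕ} (h : EvF n x u N)
    (hu : ∀ i, i < N.unpair.1 → u' i = u i) : EvF n x u' N := by
  refine ⟨h.1, h.2.1, ?_⟩
  rw [ini_eq_of_agree (f := u') (g := u) (fun i hi => hu i (lt_of_lt_of_le hi h.2.1))]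
  exact h.2.2

theorem primrec_list_ini {α : Type} [Primcodable α] {s : α → ℕ} {l : α → List ℕ}
    {f : ℕ → ℕ} (hs : Primrec s) (hl : Primrec l) (hf : Primrec f) :
    Primrec fun v => ini (fun i => f ((l v).getD i 0)) (s v) := by
  unfold ini
  refine Primrec.list_map (Primrec.list_range.comp hs) ?_
  refine hf.comp ?_
  exact (Primrec.list_getD 0).comp (hl.comp Primrec.fst) Primrec.snd

theorem primrec_EvF : PrimrecRel fun (N : ℕ) (v : ℕ × ℕ × List ℕ) =>
    EvF v.1 v.2.1 (fun i => (v.2.2.getD i 0).unpair.2) N := by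
  have hx : Primrec fun v : ℕ × ℕ × ℕ × List ℕ => v.2.2.1 :=
    Primrec.fst.comp (Primrec.snd.comp Primrec.snd)
  have hN1 : Primrec fun v : ℕ × ℕ × ℕ × List ℕ => v.1.unpair.1 :=
    Primrec.fst.comp (Primrec.unpair.comp Primrec.fst)
  have hN2 : Primrec fun v : ℕ × ℕ × ℕ × List ℕ => v.1.unpair.2 :=
    Primrec.snd.comp (Primrec.unpair.comp Primrec.fst)
  have hN21 : Primrec fun v : ℕ × ℕ × ℕ × List ℕ => v.1.unpair.2.unpair.1 :=
    Primrec.fst.comp (Primrec.unpair.comp hN2)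
  have hN22 : Primrec fun v : ℕ × ℕ × ℕ × List ℕ => v.1.unpair.2.unpair.2 :=
    Primrec.snd.comp (Primrec.unpair.comp hN2)
  have hN221 : Primrec fun v : ℕ × ℕ × ℕ × List ℕ => v.1.unpair.2.unpair.2.unpair.1 :=
    Primrec.fst.comp (Primrec.unpair.comp hN22)
  have hN222 : Primrec fun v : ℕ × ℕ × ℕ × List ℕ => v.1.unpair.2.unpair.2.unpair.2 :=
    Primrec.snd.comp (Primrec.unpair.comp hN22)
  have hx1 : Primrec fun v : ℕ × ℕ × ℕ × List ℕ => v.2.2.1.unpair.1 :=
    Primrec.fst.comp (Primrec.unpair.comp hx)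
  have hx2 : Primrec fun v : ℕ × ℕ × ℕ × List ℕ => v.2.2.1.unpair.2 :=
    Primrec.snd.comp (Primrec.unpair.comp hx)
  have hl : Primrec fun v : ℕ × ℕ × ℕ × List ℕ => v.2.2.2 :=
    Primrec.snd.comp (Primrec.snd.comp Primrec.snd)
  have h1 : PrimrecPred fun v : ℕ × ℕ × ℕ × List ℕ => v.2.2.1.unpair.1 + 1 ≤ v.1.unpair.1 :=
    Primrec.nat_le.comp (Primrec.succ.comp hx1) hN1
  have h2 : PrimrecPred fun v : ℕ × ℕ × ℕ × List ℕ => v.1.unpair.2.unpair.1 ≤ v.1.unpair.1 :=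
    Primrec.nat_le.comp hN21 hN1
  have h3 : PrimrecPred fun v : ℕ × ℕ × ℕ × List ℕ =>
      evn v.2.1 v.1.unpair.2.unpair.2.unpair.2
      (Nat.pair (ec (dl v.2.2.1.unpair.2 ++ [v.1.unpair.2.unpair.2.unpair.1]))
        (ec (ini (fun i => (v.2.2.2.getD i 0).unpair.2) v.1.unpair.2.unpair.1))) = true := by
    have h4 : Primrec fun v : ℕ × ℕ × ℕ × List ℕ =>
        ec (dl v.2.2.1.unpair.2 ++ [v.1.unpair.2.unpair.2.unpair.1]) :=
      primrec_ec.comp (Primrec.list_concat.comp (primrec_dl.comp hx2) hN221)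
    have h5 : Primrec fun v : ℕ × ℕ × ℕ × List ℕ =>
        ec (ini (fun i => (v.2.2.2.getD i 0).unpair.2) v.1.unpair.2.unpair.1) :=
      primrec_ec.comp (primrec_list_ini hN21 hl (Primrec.snd.comp Primrec.unpair))
    exact primrec_evnTrue (Primrec.fst.comp Primrec.snd) hN222 (Primrec₂.natPair.comp h4 h5)
  exact (h1.and (h2.and h3))

/-- the successor relation: `m = ⟨n, x, x'⟩` -/
def Succ1 (A : Set ℕ) (q : ℕ → ℕ) (m : ℕ) : Prop :=
  m.unpair.2.unpair.2 = Nat.pair (m.unpair.2.unpair.1.unpair.1 + 1)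
    (ec (dl m.unpair.2.unpair.1.unpair.2 ++ [0])) ∧ q m.unpair.2.unpair.1.unpair.1 ∈ A

def Succ2 (u : ℕ → ℕ) (m : ℕ) : Prop :=
  ∃ N, (EvF m.unpair.1 m.unpair.2.unpair.1 u N ∧
      (∀ N' < N, ¬ EvF m.unpair.1 m.unpair.2.unpair.1 u N')) ∧
    m.unpair.2.unpair.2 = Nat.pair N.unpair.1
      (ec (dl m.unpair.2.unpair.1.unpair.2 ++ [N.unpair.2.unpair.2.unpair.1 + 1]))

theorem ceIn_union {A B : Set ℕ} {z : ℕ → ℕ} (hA : CEIn A z) (hB : CEIn B z) :
    CEIn (A ∪ B) z := by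
  obtain ⟨c, rfl⟩ := ceIn_iff.1 hA
  obtain ⟨d, rfl⟩ := ceIn_iff.1 hB
  have h := ceIn_search (α := ℕ × ℕ)
    (fun v => ev c v.2.1.2 (Nat.pair v.1 (ec v.2.2)) || ev d v.2.1.2 (Nat.pair v.1 (ec v.2.2)))
    (by
      have h1 : Primrec fun v : ℕ × (ℕ × ℕ) × List ℕ => v.2.1.2 :=
        Primrec.snd.comp (Primrec.fst.comp Primrec.snd)
      have h2 : Primrec fun v : ℕ × (ℕ × ℕ) × List ℕ => Nat.pair v.1 (ec v.2.2) :=
        Primrec₂.natPair.comp Primrec.fst (primrec_ec.comp (Primrec.snd.comp Primrec.snd))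
      exact Primrec.or.comp ((primrec_ev c).comp h1 h2) ((primrec_ev d).comp h1 h2))
    (fun T => T.1) Primrec.fst z
  have e : {n | ∃ T : ℕ × ℕ, (ev c T.2 (Nat.pair n (ec (ini z T.1))) ||
      ev d T.2 (Nat.pair n (ec (ini z T.1)))) = true} = WC c z ∪ WC d z := by
    ext n
    simp only [Bool.or_eq_true]
    constructor
    · rintro ⟨⟨s, t⟩, h | h⟩
      · exact Or.inl ⟨s, (dom_iff_ev c _).2 ⟨t, h⟩⟩
      · exact Or.inr ⟨s, (dom_iff_ev d _).2 ⟨t, h⟩⟩
    · rintro (⟨s, h⟩ | ⟨s, h⟩)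
      · obtain ⟨t, ht⟩ := (dom_iff_ev c _).1 h
        exact ⟨⟨s, t⟩, Or.inl ht⟩
      · obtain ⟨t, ht⟩ := (dom_iff_ev d _).1 h
        exact ⟨⟨s, t⟩, Or.inr ht⟩
  rw [← e]
  exact h

theorem ini_proj {z u : ℕ → ℕ} {f : ℕ → ℕ} (hu : ∀ i, f (z i) = u i) {s L : ℕ} (h : s ≤ L) :
    ini (fun i => f ((ini z L).getD i 0)) s = ini u s := by
  refine ini_eq_of_agree fun i hi => ?_
  have h1 : i < L := lt_of_lt_of_le hi h
  have h2 : (ini z L).getD i 0 = z i := by simp [ini, h1]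
  rw [h2, hu]

theorem ceIn_succ1 {A : Set ℕ} {y w q : ℕ → ℕ} (hA : CEIn A y) :
    CEIn {m | Succ1 A q m} (jn y (jn w q)) := by
  classical
  obtain ⟨c, rfl⟩ := ceIn_iff.1 hA
  have hp : Primrec fun v : ℕ × (ℕ × ℕ × ℕ) × List ℕ => v.1.unpair.2.unpair.1.unpair.1 :=
    Primrec.fst.comp (Primrec.unpair.comp (Primrec.fst.comp (Primrec.unpair.comp
      (Primrec.snd.comp (Primrec.unpair.comp Primrec.fst)))))
  have hP : PrimrecPred fun v : ℕ × (ℕ × ℕ × ℕ) × List ℕ =>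
      (v.1.unpair.2.unpair.1.unpair.1 < v.2.1.1 ∧ v.2.1.2.1 ≤ v.2.1.1) ∧
      v.1.unpair.2.unpair.2 = Nat.pair (v.1.unpair.2.unpair.1.unpair.1 + 1)
        (ec (dl v.1.unpair.2.unpair.1.unpair.2 ++ [0])) ∧
      ev c v.2.1.2.2 (Nat.pair (v.2.2.getD v.1.unpair.2.unpair.1.unpair.1 0).unpair.2.unpair.2
        (ec (ini (fun i => (v.2.2.getD i 0).unpair.1) v.2.1.2.1))) = true := by
    refine (PrimrecPred.and ?_ ?_).and (PrimrecPred.and ?_ ?_)
    · exact Primrec.nat_lt.comp hp (Primrec.fst.comp (Primrec.fst.comp Primrec.snd))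
    · exact Primrec.nat_le.comp (Primrec.fst.comp (Primrec.snd.comp (Primrec.fst.comp
        Primrec.snd))) (Primrec.fst.comp (Primrec.fst.comp Primrec.snd))
    · have h4 : Primrec fun v : ℕ × (ℕ × ℕ × ℕ) × List ℕ => v.1.unpair.2.unpair.1.unpair.2 :=
        Primrec.snd.comp (Primrec.unpair.comp (Primrec.fst.comp (Primrec.unpair.comp
          (Primrec.snd.comp (Primrec.unpair.comp Primrec.fst)))))
      have h5 : Primrec fun v : ℕ × (ℕ × ℕ × ℕ) × List ℕ =>
          ec (dl v.1.unpair.2.unpair.1.unpair.2 ++ [0]) :=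
        primrec_ec.comp (Primrec.list_concat.comp (primrec_dl.comp h4) (Primrec.const 0))
      have h6 : Primrec fun v : ℕ × (ℕ × ℕ × ℕ) × List ℕ => v.1.unpair.2.unpair.2 :=
        Primrec.snd.comp (Primrec.unpair.comp (Primrec.snd.comp (Primrec.unpair.comp
          Primrec.fst)))
      exact Primrec.eq.comp h6 (Primrec₂.natPair.comp (Primrec.succ.comp hp) h5)
    · have h4 : Primrec fun v : ℕ × (ℕ × ℕ × ℕ) × List ℕ =>
          (v.2.2.getD v.1.unpair.2.unpair.1.unpair.1 0).unpair.2.unpair.2 :=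
        Primrec.snd.comp (Primrec.unpair.comp (Primrec.snd.comp (Primrec.unpair.comp
          ((Primrec.list_getD 0).comp (Primrec.snd.comp Primrec.snd) hp))))
      have h5 : Primrec fun v : ℕ × (ℕ × ℕ × ℕ) × List ℕ =>
          ec (ini (fun i => (v.2.2.getD i 0).unpair.1) v.2.1.2.1) :=
        primrec_ec.comp (primrec_list_ini (Primrec.fst.comp (Primrec.snd.comp (Primrec.fst.comp
            Primrec.snd))) (Primrec.snd.comp Primrec.snd) (Primrec.fst.comp Primrec.unpair))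
      exact primrec_evTrue c (Primrec.snd.comp (Primrec.snd.comp (Primrec.fst.comp Primrec.snd)))
        (Primrec₂.natPair.comp h4 h5)
  have h := ceIn_search (α := ℕ × ℕ × ℕ) _ hP.decide (fun T => T.1) Primrec.fst (jn y (jn w q))
  refine (congrArg (fun S => CEIn S (jn y (jn w q))) ?_).mp h
  ext m
  simp only [Set.mem_ofPred_eq, decide_eq_true_eq, Succ1]
  constructor
  · rintro ⟨⟨L, s, t⟩, ⟨h1, h2⟩, h3, h4⟩
    simp only at h1 h2 h3 h4
    refine ⟨h3, s, (dom_iff_ev c _).2 ⟨t, ?_⟩⟩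
    have h5 : (ini (jn y (jn w q)) L).getD m.unpair.2.unpair.1.unpair.1 0 =
        jn y (jn w q) m.unpair.2.unpair.1.unpair.1 := by simp [ini, h1]
    rw [h5, ini_proj (f := fun a => a.unpair.1) (u := y) (fun i => by simp [jn]) h2] at h4
    simpa [jn] using h4
  · rintro ⟨h3, s, hs⟩
    obtain ⟨t, ht⟩ := (dom_iff_ev c _).1 hs
    refine ⟨⟨m.unpair.2.unpair.1.unpair.1 + 1 + s, s, t⟩, ⟨?_, ?_⟩, h3, ?_⟩
    · simp only; omega
    · simp only; omega
    · simp only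
      have h5 : (ini (jn y (jn w q)) (m.unpair.2.unpair.1.unpair.1 + 1 + s)).getD
          m.unpair.2.unpair.1.unpair.1 0 = jn y (jn w q) m.unpair.2.unpair.1.unpair.1 := by
        have h1 : m.unpair.2.unpair.1.unpair.1 < m.unpair.2.unpair.1.unpair.1 + 1 + s := by omega
        simp [ini, h1]
      rw [h5, ini_proj (f := fun a => a.unpair.1) (u := y) (fun i => by simp [jn]) (by omega)]
      simpa [jn] using ht

theorem ceIn_succ2 {y u : ℕ → ℕ} : CEIn {m | Succ2 u m} (jn y u) := by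
  classical
  have hv : Primrec fun v : ℕ × (ℕ × ℕ) × List ℕ =>
      ((v.1.unpair.1, v.1.unpair.2.unpair.1, v.2.2) : ℕ × ℕ × List ℕ) := by
    refine Primrec.pair (Primrec.fst.comp (Primrec.unpair.comp Primrec.fst)) (Primrec.pair ?_ ?_)
    · exact Primrec.fst.comp (Primrec.unpair.comp (Primrec.snd.comp (Primrec.unpair.comp
        Primrec.fst)))
    · exact Primrec.snd.comp Primrec.snd
  have hNot : PrimrecRel fun (N : ℕ) (v : ℕ × ℕ × List ℕ) =>
      ¬ EvF v.1 v.2.1 (fun i => (v.2.2.getD i 0).unpair.2) N := by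
    exact PrimrecPred.not primrec_EvF
  have hN : Primrec fun v : ℕ × (ℕ × ℕ) × List ℕ => v.2.1.2 :=
    Primrec.snd.comp (Primrec.fst.comp Primrec.snd)
  have hP : PrimrecPred fun v : ℕ × (ℕ × ℕ) × List ℕ =>
      v.2.1.2 ≤ v.2.1.1 ∧
      (EvF v.1.unpair.1 v.1.unpair.2.unpair.1 (fun i => (v.2.2.getD i 0).unpair.2) v.2.1.2 ∧
      (∀ N' ∈ List.range v.2.1.2, ¬ EvF v.1.unpair.1 v.1.unpair.2.unpair.1
        (fun i => (v.2.2.getD i 0).unpair.2) N')) ∧
      v.1.unpair.2.unpair.2 = Nat.pair v.2.1.2.unpair.1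
        (ec (dl v.1.unpair.2.unpair.1.unpair.2 ++ [v.2.1.2.unpair.2.unpair.2.unpair.1 + 1])) := by
    refine PrimrecPred.and ?_ (PrimrecPred.and (PrimrecPred.and ?_ ?_) ?_)
    · exact Primrec.nat_le.comp hN (Primrec.fst.comp (Primrec.fst.comp Primrec.snd))
    · exact primrec_EvF.comp hN hv
    · exact (PrimrecRel.forall_mem_list hNot).comp (Primrec.list_range.comp hN) hv
    · have h4 : Primrec fun v : ℕ × (ℕ × ℕ) × List ℕ => v.1.unpair.2.unpair.1.unpair.2 :=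
        Primrec.snd.comp (Primrec.unpair.comp (Primrec.fst.comp (Primrec.unpair.comp
          (Primrec.snd.comp (Primrec.unpair.comp Primrec.fst)))))
      have h5 : Primrec fun v : ℕ × (ℕ × ℕ) × List ℕ => v.2.1.2.unpair.2.unpair.2.unpair.1 + 1 :=
        Primrec.succ.comp (Primrec.fst.comp (Primrec.unpair.comp (Primrec.snd.comp
          (Primrec.unpair.comp (Primrec.snd.comp (Primrec.unpair.comp hN))))))
      have h6 : Primrec fun v : ℕ × (ℕ × ℕ) × List ℕ =>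
          ec (dl v.1.unpair.2.unpair.1.unpair.2 ++ [v.2.1.2.unpair.2.unpair.2.unpair.1 + 1]) :=
        primrec_ec.comp (Primrec.list_concat.comp (primrec_dl.comp h4) h5)
      have h7 : Primrec fun v : ℕ × (ℕ × ℕ) × List ℕ => v.1.unpair.2.unpair.2 :=
        Primrec.snd.comp (Primrec.unpair.comp (Primrec.snd.comp (Primrec.unpair.comp
          Primrec.fst)))
      exact Primrec.eq.comp h7 (Primrec₂.natPair.comp (Primrec.fst.comp (Primrec.unpair.comp hN))
        h6)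
  have h := ceIn_search (α := ℕ × ℕ) _ hP.decide (fun T => T.1) Primrec.fst (jn y u)
  refine (congrArg (fun S => CEIn S (jn y u)) ?_).mp h
  ext m
  simp only [Set.mem_ofPred_eq, decide_eq_true_eq, Succ2, List.mem_range]
  have key : ∀ N L : ℕ, N ≤ L → (EvF m.unpair.1 m.unpair.2.unpair.1
      (fun i => ((ini (jn y u) L).getD i 0).unpair.2) N ↔
      EvF m.unpair.1 m.unpair.2.unpair.1 u N) := by
    intro N L hNL
    have h1 : N.unpair.1 ≤ N := Nat.unpair_left_le N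
    have h2 : ∀ i, i < N.unpair.1 → ((ini (jn y u) L).getD i 0).unpair.2 = u i := by
      intro i hi
      have h3 : i < L := by omega
      simp [ini, h3, jn]
    exact ⟨fun h => h.congr fun i hi => (h2 i hi).symm, fun h => h.congr fun i hi => h2 i hi⟩
  constructor
  · rintro ⟨⟨L, N⟩, h1, ⟨h2, h3⟩, h4⟩
    simp only at h1 h2 h3 h4
    refine ⟨N, ⟨(key N L h1).1 h2, fun N' hN' h5 => h3 N' hN' ((key N' L (by omega)).2 h5)⟩, h4⟩
  · rintro ⟨N, ⟨h2, h3⟩, h4⟩
    exact ⟨⟨N, N⟩, le_rfl, ⟨(key N N le_rfl).2 h2,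
      fun N' hN' h5 => h3 N' hN' ((key N' N (by omega)).1 h5)⟩, h4⟩

/-- the candidates for the next value form a c.e. set -/
theorem ceIn_cand (n x : ℕ) (w q : ℕ → ℕ) (p : ℕ) (hp : x.unpair.1 = p) :
    CEIn {a | ∃ q' : ℕ → ℕ, ini q' p = ini q p ∧ q' p = a ∧ ∃ N, EvF n x (jn w q') N} w := by
  classical
  have hN1 : Primrec fun v : ℕ × (List ℕ × ℕ) × List ℕ => v.2.1.2.unpair.1 :=
    Primrec.fst.comp (Primrec.unpair.comp (Primrec.snd.comp (Primrec.fst.comp Primrec.snd)))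
  have hN2 : Primrec fun v : ℕ × (List ℕ × ℕ) × List ℕ => v.2.1.2.unpair.2 :=
    Primrec.snd.comp (Primrec.unpair.comp (Primrec.snd.comp (Primrec.fst.comp Primrec.snd)))
  have hN21 : Primrec fun v : ℕ × (List ℕ × ℕ) × List ℕ => v.2.1.2.unpair.2.unpair.1 :=
    Primrec.fst.comp (Primrec.unpair.comp hN2)
  have hN22 : Primrec fun v : ℕ × (List ℕ × ℕ) × List ℕ => v.2.1.2.unpair.2.unpair.2 :=
    Primrec.snd.comp (Primrec.unpair.comp hN2)
  have hN221 : Primrec fun v : ℕ × (List ℕ × ℕ) × List ℕ =>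
      v.2.1.2.unpair.2.unpair.2.unpair.1 := Primrec.fst.comp (Primrec.unpair.comp hN22)
  have hN222 : Primrec fun v : ℕ × (List ℕ × ℕ) × List ℕ =>
      v.2.1.2.unpair.2.unpair.2.unpair.2 := Primrec.snd.comp (Primrec.unpair.comp hN22)
  have hτ : Primrec fun v : ℕ × (List ℕ × ℕ) × List ℕ => v.2.1.1 :=
    Primrec.fst.comp (Primrec.fst.comp Primrec.snd)
  have hl : Primrec fun v : ℕ × (List ℕ × ℕ) × List ℕ => v.2.2 :=
    Primrec.snd.comp Primrec.snd
  have hP : PrimrecPred fun v : ℕ × (List ℕ × ℕ) × List ℕ =>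
      tk v.2.1.1 p = ini q p ∧ v.2.1.1.getD p 0 = v.1 ∧
      x.unpair.1 + 1 ≤ v.2.1.2.unpair.1 ∧ v.2.1.2.unpair.2.unpair.1 ≤ v.2.1.2.unpair.1 ∧
      evn n v.2.1.2.unpair.2.unpair.2.unpair.2
        (Nat.pair (ec (dl x.unpair.2 ++ [v.2.1.2.unpair.2.unpair.2.unpair.1]))
        (ec (zp v.2.2 v.2.1.1 v.2.1.2.unpair.2.unpair.1))) = true := by
    refine PrimrecPred.and ?_ (PrimrecPred.and ?_ (PrimrecPred.and ?_ (PrimrecPred.and ?_ ?_)))
    · exact Primrec.eq.comp (primrec_tk.comp hτ (Primrec.const p)) (Primrec.const _)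
    · exact Primrec.eq.comp ((Primrec.list_getD 0).comp hτ (Primrec.const p)) Primrec.fst
    · exact Primrec.nat_le.comp (Primrec.const _) hN1
    · exact Primrec.nat_le.comp hN21 hN1
    · have h4 : Primrec fun v : ℕ × (List ℕ × ℕ) × List ℕ =>
          ec (dl x.unpair.2 ++ [v.2.1.2.unpair.2.unpair.2.unpair.1]) :=
        primrec_ec.comp (Primrec.list_concat.comp (Primrec.const _) hN221)
      have h5 : Primrec fun v : ℕ × (List ℕ × ℕ) × List ℕ =>
          ec (zp v.2.2 v.2.1.1 v.2.1.2.unpair.2.unpair.1) :=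
        primrec_ec.comp (primrec_zp.comp (Primrec.pair (Primrec.pair hl hτ) hN21))
      exact primrec_evnTrue (Primrec.const n) hN222 (Primrec₂.natPair.comp h4 h5)
  have h := ceIn_search (α := List ℕ × ℕ) _ hP.decide (fun T => T.2.unpair.2.unpair.1)
    (Primrec.fst.comp (Primrec.unpair.comp (Primrec.snd.comp (Primrec.unpair.comp
      Primrec.snd)))) w
  refine (congrArg (fun S => CEIn S w) ?_).mp h
  ext a
  simp only [Set.mem_ofPred_eq, decide_eq_true_eq]
  constructor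
  · rintro ⟨⟨τ, N⟩, h1, h2, h3, h4, h5⟩
    simp only at h1 h2 h3 h4 h5
    refine ⟨xf τ, h1, h2, N, h3, h4, ?_⟩
    rw [← ini_jn_xf]
    exact h5
  · rintro ⟨q', h1, h2, N, h3, h4, h5⟩
    refine ⟨⟨ini q' (N.unpair.1), N⟩, ?_, ?_, h3, h4, ?_⟩
    · simp only
      rw [tk_ini (by omega)]
      exact h1
    · simp only
      rw [← h2]
      have h6 : p < N.unpair.1 := by omega
      simp [ini, h6]
    · simp only
      rw [ini_jn w q' _ _ _ le_rfl h4]
      exact h5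

end Pool.Agent.Helper29.MWF
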